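import Mathlib
import Pool.Agent.Helper49.SG.Param

/-!
# SG: the star process has a large independent set with positive probability, all large degrees
-/

set_option autoImplicit false
open Classical
open Finset Filter

namespace Pool.Agent.Helper49.SG

open Pool.Agent.Helper49.Star

theorem star_side {d X Y Z : ℕ} {θ T Λ : ℝ} (hdpos : 0 < d)
    (hYXZ : Y = X * Z) (hZ : 3 ≤ Z) (hXpos : 2 ≤ X)
    (hθ : 0 < θ) (hθ1 : θ ≤ 1 / 1000000) (hT : θ ^ 2 * d = T) (hT1 : 5000 ≤ T)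
    (hs : θ * (T + Λ) ≤ 1 / 100) (hΛ : 0 ≤ Λ)
    (hθD : θ * d = X) (hX1 : Real.log (4 * X) ≤ Λ)
    (hX2 : 16 * Real.exp (-(T / 6) + 3 / 2 * Λ + 4) ≤ X)
    (hX3 : 512 * √(X : ℝ) ≤ Real.exp (99 / 100 * (T / 6 - 1)))
    (hY : Real.exp (7 / 12 * T + 1) * 16 ≤ Y) :
    ∃ c : ℝ, 0 < c ∧ ∀ᶠ n : ℕ in atTop, Even (d * n) →
      c ≤ succp d (n - (n / Y + 1)) (⊥ : SimpleGraph (Fin n)) := by
  obtain ⟨K2, hK2⟩ : ∃ K2 : ℝ, K2 = b0 θ d * Real.exp (θ * d) * cc θ ^ 2 * (d : ℝ) ^ 2 * (2 * X)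
      + (2 * (d * Real.exp (2 / 3 * θ * d))) ^ 2 := ⟨_, rfl⟩
  have hb := b0_pos θ d
  refine ⟨cd d * (b0 θ d / 4), mul_pos (cd_pos d) (by linarith), ?_⟩
  have hY0 : 0 < Y := by rw [hYXZ]; exact Nat.mul_pos (by omega) (by omega)
  filter_upwards [eventually_ge_atTop (Y * (d + Kd d + 1000)), eventually_ge_atTop (Y + 1000),
    (tendsto_natCast_atTop_atTop (R := ℝ)).eventually_ge_atTop (8 * K2 / b0 θ d)] with n hnj hnY hn2 hev
  obtain ⟨j, hjd⟩ : ∃ j, j = n / Y + 1 := ⟨_, rfl⟩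
  rw [← hjd]
  have hj : d + Kd d + 1000 ≤ j := by
    have : d + Kd d + 1000 ≤ n / Y := (Nat.le_div_iff_mul_le hY0).2 (by rw [mul_comm]; exact hnj)
    omega
  have hnYj : n ≤ Y * j := by
    have h1 : n < Y * (n / Y + 1) := Nat.lt_mul_div_succ n hY0
    rw [← hjd] at h1
    exact h1.le
  have hYjn : Y * j ≤ n + Y := by
    have h1 : Y * (n / Y) ≤ n := Nat.mul_div_le n Y
    rw [hjd]
    nlinarith
  have hXR : (1 : ℝ) ≤ X := by exact_mod_cast (by omega : 1 ≤ X)
  have hX0 : (0 : ℝ) < X := by linarith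
  have hn0 : 0 < n := by omega
  have hnR : (0 : ℝ) < n := by exact_mod_cast hn0
  have hZj : Z * j ≤ n := by
    have h1 : X * (Z * j) ≤ n + Y := by rw [← mul_assoc, ← hYXZ]; exact hYjn
    have h2 : 2 * (Z * j) ≤ X * (Z * j) := Nat.mul_le_mul_right _ hXpos
    omega
  have h3j : 3 * j ≤ Z * j := Nat.mul_le_mul_right j hZ
  have hjn : j ≤ n := by omega
  obtain ⟨tstar, hts⟩ : ∃ tstar, tstar = n - Z * j := ⟨_, rfl⟩
  have htsR : (tstar : ℝ) = (n : ℝ) - Z * j := by
    rw [hts, Nat.cast_sub hZj]; push_cast; ring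
  have hnXZ : (n : ℝ) ≤ X * (Z * j) := by
    have h1 : n ≤ X * (Z * j) := by rw [← mul_assoc, ← hYXZ]; exact hnYj
    exact_mod_cast h1
  have hnXZ2 : (X : ℝ) * (Z * j) ≤ 2 * n := by
    have h1 : X * (Z * j) ≤ 2 * n := by
      have : X * (Z * j) ≤ n + Y := by rw [← mul_assoc, ← hYXZ]; exact hYjn
      omega
    exact_mod_cast h1
  have hZj0 : (0 : ℝ) < Z * j := by
    have : 0 < Z * j := by omega
    exact_mod_cast this
  have hX' : (n : ℝ) ≤ X * ((n : ℝ) - tstar) := by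
    rw [htsR, ← sub_add, sub_self, zero_add]; exact hnXZ
  have hs1 : θ * T ≤ 1 / 100 := by nlinarith
  obtain ⟨hE0, hE1⟩ := EE_bounds hθ hθ1 hT hT1 hs1 hXR hX1
  have hη : (0 : ℝ) ≤ 2 / 3 * θ := by positivity
  have hcc : 0 ≤ cc θ := cc_nonneg hθ.le
  have hmain := main_induction (n := n) (d := d) (tstar := tstar) (e := j) (Xr := X)
    (η := 2 / 3 * θ) (E := EE θ d X) (κ₁ := b0 θ d / 8)
    (K := b0 θ d * Real.exp (θ * d) * cc θ ^ 2) (K2 := K2) (φ := phi θ d)
    (cost := costg (b0 θ d) (T / 6 - 1) n)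
    hev hn0 (by omega) (by omega) hX' hX0 hη hE0
    (fun l k _ hlD _ h => hE_param hθ hXR hlD h)
    (fun l N _ hN => phi_le_one hθ (by exact_mod_cast hN))
    (fun l q N hl hq _ hN => phi_sub hθ rfl hl hq hN)
    (fun t => costg_nonneg _ hb.le n t)
    (fun t ht l k _ _ hlow h => hcost_param hθ hθ1 hT hT1 hs hΛ hXR hX1 (by omega) hlow h)
    (by linarith)
    (by
      intro l N _ hN hl
      have h1 : (d : ℝ) * tstar / n = d * (1 - Z * j / n) := by
        rw [htsR]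
        field_simp
      rw [h1] at hl
      have h2 := hterm_param hθ hθ1 hT hT1 hs hΛ hXR hX1 hX2 (w := Z * j / n) (by positivity)
        (by
          rw [← mul_assoc, hθD, ← mul_div_assoc, div_le_iff₀ hnR]
          exact hnXZ2) (N := N) (by exact_mod_cast hN) hl
      have h3 : (n : ℝ) - tstar = Z * j := by rw [htsR]; ring
      rw [h3]
      have h4 := mul_le_mul_of_nonneg_right h2 hZj0.le
      refine h4.trans ?_
      have h5 := mul_le_mul_of_nonneg_left hnXZ2 (by linarith : 0 ≤ b0 θ d / 16)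
      calc b0 θ d / 16 * X * (Z * j) = b0 θ d / 16 * (X * (Z * j)) := by ring
        _ ≤ b0 θ d / 16 * (2 * n) := h5
        _ = b0 θ d / 8 * n := by ring)
    (by positivity) (le_of_eq hK2.symm) tstar 0 (by omega) (by omega) ⊥ 0 0
    (valid_bot d)
    (by
      have := Finset.card_le_univ (uns d (⊥ : SimpleGraph (Fin n)))
      rw [Fintype.card_fin] at this
      omega)
    (by
      have h1 : uns d (⊥ : SimpleGraph (Fin n)) = Finset.univ := by
        ext u; simp [mem_uns, hdpos]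
      rw [h1, Finset.card_univ, Fintype.card_fin]
      omega)
    le_rfl (by simp [hE0])
    (by
      unfold Xsum ew
      rw [Finset.sum_congr rfl (g := fun _ => (1 : ℝ)) (fun u _ => by simp),
        Finset.sum_const, nsmul_eq_mul, mul_one, add_zero]
      have := Finset.card_le_univ (uns d (⊥ : SimpleGraph (Fin n)))
      rw [Fintype.card_fin] at this
      exact_mod_cast this)
  rw [Nat.sub_zero] at hmain
  refine le_trans ?_ hmain
  apply mul_le_mul_of_nonneg_left _ (cd_pos d).le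
  -- lower bound for the potential at time zero
  have hbet := bet_le hθ hθ1 hT hT1 hs1
  have hb0ge := b0_ge hθ hθ1 hT hT1 hs1
  have hP : Psum d (phi θ d) 0 (⊥ : SimpleGraph (Fin n)) = n * (1 - phi θ d 0 0) := by
    unfold Psum
    rw [Finset.sum_congr rfl (g := fun _ => 1 - phi θ d 0 0) (fun u _ => by simp),
      Finset.sum_const, nsmul_eq_mul]
    have h1 : uns d (⊥ : SimpleGraph (Fin n)) = Finset.univ := by
      ext u; simp [mem_uns, hdpos]
    rw [h1, Finset.card_univ, Fintype.card_fin]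
  have hphi0 : phi θ d 0 0 = b0 θ d * (1 - bet θ d) := by
    unfold phi ew; simp
  have hcostsum := sum_cost (b := b0 θ d) (X := X) (g := T / 6 - 1) (by linarith) hb.le (n := n)
    (tstar := tstar) (by omega) (by omega) hX' hX0 hX3
  have hen : (j : ℝ) / n ≤ b0 θ d / 8 := by
    have hYR : (0 : ℝ) < Y := by exact_mod_cast hY0
    have h1 : (Y : ℝ) * j ≤ 2 * n := by
      have : Y * j ≤ 2 * n := by omega
      exact_mod_cast this
    rw [div_le_iff₀ hnR]
    have h3 : Real.exp (-(7 / 12 * T + 1)) * Real.exp (7 / 12 * T + 1) = 1 := by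
      rw [← Real.exp_add]; simp
    have h4 : Real.exp (-(7 / 12 * T + 1)) * (Real.exp (7 / 12 * T + 1) * 16) ≤ b0 θ d * Y :=
      mul_le_mul hb0ge hY (by positivity) hb.le
    rw [← mul_assoc, h3, one_mul] at h4
    have hj0 : (0 : ℝ) ≤ j := by positivity
    have h5 := mul_le_mul_of_nonneg_right h4 hj0
    have h6 := mul_le_mul_of_nonneg_left h1 hb.le
    nlinarith
  have hK2n : K2 / (n : ℝ) ^ 2 * ((tstar : ℝ) - ((0 : ℕ) : ℝ)) ≤ b0 θ d / 8 := by
    have hK20 : 0 ≤ K2 := by rw [hK2]; positivity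
    have h1 : ((tstar : ℝ) - ((0 : ℕ) : ℝ)) ≤ n := by
      have : (tstar : ℝ) ≤ n := by exact_mod_cast (by omega : tstar ≤ n)
      simpa using this
    have h2 : K2 / (n : ℝ) ^ 2 * ((tstar : ℝ) - ((0 : ℕ) : ℝ)) ≤ K2 / (n : ℝ) ^ 2 * n :=
      mul_le_mul_of_nonneg_left h1 (by positivity)
    refine h2.trans ?_
    have h3 : K2 / (n : ℝ) ^ 2 * n = K2 / n := by field_simp
    rw [h3, div_le_iff₀ hnR]
    have h5 : 8 * K2 / b0 θ d ≤ n := hn2
    rw [div_le_iff₀ hb] at h5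
    linarith
  unfold Phi
  rw [hP, hphi0]
  have e1 : ((n : ℝ) - ((0 : ℕ) : ℝ) - n * (1 - b0 θ d * (1 - bet θ d))) / n
      = b0 θ d * (1 - bet θ d) := by
    field_simp
    push_cast
    ring
  rw [e1]
  have h6 : b0 θ d * (3 / 4) ≤ b0 θ d * (1 - bet θ d) :=
    mul_le_mul_of_nonneg_left (by linarith) hb.le
  have h7 : (0 : ℝ) ^ 2 / (n : ℝ) ^ 2 = 0 := by simp
  rw [h7]
  linarith

end Pool.Agent.Helper49.SG
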