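import Mathlib
import Pool.Agent.Helper49.UnifSide

/-!
# SG: random regular graphs have no large independent sets, all large degrees
-/

set_option autoImplicit false
open Classical
open Finset Filter Topology

namespace Pool.Agent.Helper49.SG

open Pool.Agent.Helper49.Switch

theorem uniform_bound {n d Y W s : ℕ} (hd : 0 < d) (hn : 0 < n) (hY : 0 < Y)
    (hdW : 64 * W * Y ≤ d) (hs8 : 8 * (d + 1) ≤ s) (hsY : s = n / Y) :
    2 ^ (W * s) * (Finset.univ.filter (fun H : SimpleGraph (Fin n) => (∀ v, H.degree v = d) ∧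
      ∃ I : Finset (Fin n), (∀ x ∈ I, ∀ y ∈ I, ¬ H.Adj x y) ∧ n ≤ Y * I.card)).card
      ≤ n.choose s * (Finset.univ.filter
        (fun H : SimpleGraph (Fin n) => ∀ v, H.degree v = d)).card := by
  have hs0 : 0 < s := by omega
  have hn2 : n ≤ 2 * Y * s := by
    have h1 : n < Y * (s + 1) := by
      rw [hsY]; exact Nat.lt_mul_div_succ n hY
    nlinarith
  have hJ : 32 * (W * s) * n ≤ d * s ^ 2 := by
    calc 32 * (W * s) * n ≤ 32 * (W * s) * (2 * Y * s) := Nat.mul_le_mul_left _ hn2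
      _ = 64 * W * Y * s ^ 2 := by ring
      _ ≤ d * s ^ 2 := Nat.mul_le_mul_right _ hdW
  have hsub : Finset.univ.filter (fun H : SimpleGraph (Fin n) => (∀ v, H.degree v = d) ∧
      ∃ I : Finset (Fin n), (∀ x ∈ I, ∀ y ∈ I, ¬ H.Adj x y) ∧ n ≤ Y * I.card)
      ⊆ (Finset.powersetCard s (Finset.univ : Finset (Fin n))).biUnion
        (fun S => Finset.univ.filter (fun H : SimpleGraph (Fin n) => (∀ v, H.degree v = d) ∧
          ∀ x ∈ S, ∀ y ∈ S, ¬ H.Adj x y)) := by
    intro H hH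
    simp only [Finset.mem_filter, Finset.mem_univ, true_and, Finset.mem_biUnion,
      Finset.mem_powersetCard] at hH ⊢
    obtain ⟨hreg, I, hI, hIc⟩ := hH
    have hsI : s ≤ I.card := by
      rw [hsY]
      exact Nat.div_le_of_le_mul hIc
    obtain ⟨S, hSI, hSc⟩ := Finset.exists_subset_card_eq hsI
    exact ⟨S, ⟨Finset.subset_univ _, hSc⟩, hreg, fun x hx y hy => hI x (hSI hx) y (hSI hy)⟩
  have h1 := (Finset.card_le_card hsub).trans Finset.card_biUnion_le
  calc _ ≤ 2 ^ (W * s) * ∑ S ∈ Finset.powersetCard s (Finset.univ : Finset (Fin n)),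
        (Finset.univ.filter (fun H : SimpleGraph (Fin n) => (∀ v, H.degree v = d) ∧
          ∀ x ∈ S, ∀ y ∈ S, ¬ H.Adj x y)).card := Nat.mul_le_mul_left _ h1
    _ = ∑ S ∈ Finset.powersetCard s (Finset.univ : Finset (Fin n)), 2 ^ (W * s) *
        (Finset.univ.filter (fun H : SimpleGraph (Fin n) => (∀ v, H.degree v = d) ∧
          ∀ x ∈ S, ∀ y ∈ S, ¬ H.Adj x y)).card := by rw [Finset.mul_sum]
    _ ≤ ∑ S ∈ Finset.powersetCard s (Finset.univ : Finset (Fin n)),
        (Finset.univ.filter (fun H : SimpleGraph (Fin n) => ∀ v, H.degree v = d)).card := by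
        apply Finset.sum_le_sum
        intro S hS
        have hSc := (Finset.mem_powersetCard.1 hS).2
        apply indep_count hd hn (by rw [hSc]; exact hs8)
        rw [hSc]; exact hJ
    _ = _ := by
        rw [Finset.sum_const, Finset.card_powersetCard, Finset.card_univ, Fintype.card_fin,
          smul_eq_mul]

theorem uniform_side {d Y W : ℕ} (hd : 0 < d) (hY : 0 < Y)
    (hdW : 64 * W * Y ≤ d) (hW : 12 * Y ≤ 2 ^ W) :
    Tendsto (fun n : ℕ => ((Finset.univ.filter (fun H : SimpleGraph (Fin n) =>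
      (∀ v, H.degree v = d) ∧
      ∃ I : Finset (Fin n), (∀ x ∈ I, ∀ y ∈ I, ¬ H.Adj x y) ∧ n ≤ Y * I.card)).card : ℝ)
      / ((Finset.univ.filter (fun H : SimpleGraph (Fin n) => ∀ v, H.degree v = d)).card : ℝ))
      atTop (𝓝 0) := by
  have hlim : Tendsto (fun n : ℕ => ((1 : ℝ) / 2) ^ (n / Y)) atTop (𝓝 0) :=
    (tendsto_pow_atTop_nhds_zero_of_lt_one (by norm_num) (by norm_num)).comp
      (Nat.tendsto_div_const_atTop hY.ne')
  refine squeeze_zero' (Eventually.of_forall fun n => by positivity) ?_ hlim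
  filter_upwards [(Nat.tendsto_div_const_atTop hY.ne').eventually_ge_atTop (8 * (d + 1)),
    eventually_gt_atTop 0] with n hn8 hn
  have hs0 : 0 < n / Y := by omega
  obtain ⟨s, hs⟩ : ∃ s, s = n / Y := ⟨_, rfl⟩
  rw [← hs] at hn8 hs0 ⊢
  have h1 := uniform_bound hd hn hY hdW hn8 hs
  have hn2 : n ≤ 2 * Y * s := by
    have h1 : n < Y * (s + 1) := by
      rw [hs]; exact Nat.lt_mul_div_succ n hY
    nlinarith
  have h2 := choose_bound hs0 hn2
  obtain ⟨R, hR⟩ : ∃ R : ℕ, R = (Finset.univ.filter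
    (fun H : SimpleGraph (Fin n) => ∀ v, H.degree v = d)).card := ⟨_, rfl⟩
  obtain ⟨B, hB⟩ : ∃ B : ℕ, B = (Finset.univ.filter (fun H : SimpleGraph (Fin n) =>
      (∀ v, H.degree v = d) ∧
      ∃ I : Finset (Fin n), (∀ x ∈ I, ∀ y ∈ I, ¬ H.Adj x y) ∧ n ≤ Y * I.card)).card := ⟨_, rfl⟩
  rw [← hR, ← hB] at h1 ⊢
  rcases Nat.eq_zero_or_pos R with hR0 | hR0
  · rw [hR0]; simp
  · have hRR : (0 : ℝ) < R := by exact_mod_cast hR0
    rw [div_le_iff₀ hRR]
    have h3 : (2 : ℝ) ^ (W * s) * B ≤ ((n.choose s : ℕ) : ℝ) * R := by exact_mod_cast h1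
    have h4 : (2 : ℝ) ^ (W * s) * B ≤ (6 * Y : ℝ) ^ s * R :=
      h3.trans (mul_le_mul_of_nonneg_right h2 hRR.le)
    have h5 : (12 * Y : ℝ) ^ s ≤ (2 : ℝ) ^ (W * s) := by
      rw [pow_mul]
      apply pow_le_pow_left₀ (by positivity)
      exact_mod_cast hW
    have h6 : (12 * Y : ℝ) ^ s = (2 : ℝ) ^ s * (6 * Y : ℝ) ^ s := by
      rw [← mul_pow]; ring
    have hYs : (0 : ℝ) < (6 * Y : ℝ) ^ s := by positivity
    have h7 : (2 : ℝ) ^ s * (6 * Y : ℝ) ^ s * B ≤ (6 * Y : ℝ) ^ s * R := by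
      rw [← h6]
      exact (mul_le_mul_of_nonneg_right h5 (by positivity)).trans h4
    have h8 : (2 : ℝ) ^ s * B ≤ R := by
      have : (6 * Y : ℝ) ^ s * ((2 : ℝ) ^ s * B) ≤ (6 * Y : ℝ) ^ s * R := by linarith
      exact le_of_mul_le_mul_left this hYs
    rw [div_pow, one_pow, one_div_mul_eq_div, le_div_iff₀ (by positivity)]
    linarith

end Pool.Agent.Helper49.SG
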