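import Mathlib
import Pool.Agent.Helper49.SG.Final
import Pool.Agent.Helper49.SG.Unif

/-!
# SG: the numbers
-/

set_option autoImplicit false
open Classical
open Finset Filter Topology

namespace Pool.Agent.Helper49.SG

open Pool.Agent.Helper49.Star

/-- The size of `exp (log d / 200)`. -/
theorem v_facts {d : ℕ} (hd : Real.exp 5000 ≤ d) : ∃ u v : ℝ, 5000 ≤ u ∧ (d : ℝ) = Real.exp u ∧
    v = Real.exp (u / 200) ∧ 10000000000 ≤ v ∧ u ≤ 200 * v ∧ (d : ℝ) = v ^ 200 := by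
  have hd0 : (0 : ℝ) < d := (Real.exp_pos _).trans_le hd
  obtain ⟨u, hu⟩ : ∃ u : ℝ, u = Real.log d := ⟨_, rfl⟩
  have hdu : (d : ℝ) = Real.exp u := by rw [hu, Real.exp_log hd0]
  have hu1 : 5000 ≤ u := by rw [hu, Real.le_log_iff_exp_le hd0]; exact hd
  refine ⟨u, Real.exp (u / 200), hu1, hdu, rfl, ?_, ?_, ?_⟩
  · have h1 : Real.exp 25 ≤ Real.exp (u / 200) := Real.exp_le_exp.2 (by linarith)
    have h2 : Real.exp 25 = (Real.exp 1) ^ 25 := by rw [← Real.exp_nat_mul]; norm_num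
    have h3 := Real.exp_one_gt_d9
    have h4 : (2.7 : ℝ) ^ 25 ≤ (Real.exp 1) ^ 25 := pow_le_pow_left₀ (by norm_num) (by linarith) 25
    have h5 : (10000000000 : ℝ) ≤ 2.7 ^ 25 := by norm_num
    linarith
  · have := Real.add_one_le_exp (u / 200)
    linarith
  · rw [hdu, ← Real.exp_nat_mul]
    congr 1
    push_cast
    ring

theorem star_num {d : ℕ} (hd : Real.exp 5000 ≤ d) : ∃ Y : ℕ, 2 ≤ Y ∧ (Y : ℝ) ≤ (d : ℝ) ^ (19 / 20 : ℝ) ∧
    ∃ c : ℝ, 0 < c ∧ ∀ᶠ n : ℕ in atTop, Even (d * n) →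
      c ≤ succp d (n - (n / Y + 1)) (⊥ : SimpleGraph (Fin n)) := by
  obtain ⟨u, v, hu, hdu, hv, hv1, huv, hdv⟩ := v_facts hd
  have hv0 : 0 < v := by linarith
  have hd0 : (0 : ℝ) < d := by rw [hdu]; exact Real.exp_pos _
  have hvp : ∀ m : ℕ, v ^ m = Real.exp (m * (u / 200)) := fun m => by
    rw [hv, ← Real.exp_nat_mul]
  have hpow : ∀ a b : ℕ, a ≤ b → v ^ a ≤ v ^ b := fun a b h => pow_le_pow_right₀ (by linarith) h
  -- s
  obtain ⟨s, hs⟩ : ∃ s : ℝ, s = √(8 / 5 * u * d) := ⟨_, rfl⟩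
  have hs0 : 0 < s := by rw [hs]; exact Real.sqrt_pos.2 (by positivity)
  have hs2 : s ^ 2 = 8 / 5 * u * d := by rw [hs]; exact Real.sq_sqrt (by positivity)
  have hslow : v ^ 100 ≤ s := by
    rw [hs]
    apply Real.le_sqrt_of_sq_le
    rw [← pow_mul, show 100 * 2 = 200 by norm_num, ← hdv]
    nlinarith
  have hsup : s ≤ v ^ 101 := by
    rw [hs]
    apply Real.sqrt_le_iff.2 ⟨by positivity, ?_⟩
    rw [← pow_mul, show 101 * 2 = 200 + 2 by norm_num, pow_add, ← hdv]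
    have : 8 / 5 * u ≤ v ^ 2 := by nlinarith
    nlinarith
  -- X
  obtain ⟨X, hX⟩ : ∃ X : ℕ, X = ⌈s⌉₊ := ⟨_, rfl⟩
  have hXs : s ≤ X := by rw [hX]; exact Nat.le_ceil s
  have hXs1 : (X : ℝ) ≤ s + 1 := by rw [hX]; exact (Nat.ceil_lt_add_one hs0.le).le
  have h100 : (10000000000 : ℝ) ≤ v ^ 100 := by
    have := hpow 1 100 (by norm_num)
    rw [pow_one] at this
    linarith
  have h101 : v ^ 101 = v ^ 100 * v := pow_succ _ _
  have h102 : v ^ 102 = v ^ 101 * v := pow_succ _ _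
  have h4X : (4 : ℝ) * X ≤ v ^ 102 := by
    have : (4:ℝ) * X ≤ 8 * v ^ 101 := by
      have : (1:ℝ) ≤ v ^ 101 := one_le_pow₀ (by linarith)
      linarith
    rw [h102]
    nlinarith [pow_pos hv0 101]
  have hX0 : (0 : ℝ) < X := hs0.trans_le hXs
  -- θ, T, Λ
  obtain ⟨θ, hθ⟩ : ∃ θ : ℝ, θ = X / d := ⟨_, rfl⟩
  obtain ⟨T, hT⟩ : ∃ T : ℝ, T = θ ^ 2 * d := ⟨_, rfl⟩
  obtain ⟨Λ, hΛ⟩ : ∃ Λ : ℝ, Λ = 51 / 100 * u := ⟨_, rfl⟩
  have hθ0 : 0 < θ := by rw [hθ]; positivity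
  have hθD : θ * d = X := by rw [hθ]; field_simp
  have hT' : T * d = X ^ 2 := by
    rw [hT, ← hθD]; ring
  have hTlow : 8 / 5 * u ≤ T := by
    have h1 : s ^ 2 ≤ (X : ℝ) ^ 2 := pow_le_pow_left₀ hs0.le hXs 2
    rw [hs2, ← hT'] at h1
    exact le_of_mul_le_mul_right h1 hd0
  have hTup : T ≤ 8 / 5 * u + 1 := by
    have h1 : (X : ℝ) ^ 2 ≤ (s + 1) ^ 2 := pow_le_pow_left₀ hX0.le hXs1 2
    have h2 : (s + 1) ^ 2 = 8 / 5 * u * d + (2 * s + 1) := by rw [← hs2]; ring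
    have h3 : 2 * s + 1 ≤ d := by
      rw [hdv]
      have h4 : v ^ 102 ≤ v ^ 200 := hpow _ _ (by norm_num)
      have : (1:ℝ) ≤ v ^ 101 := one_le_pow₀ (by linarith)
      have : 3 * v ^ 101 ≤ v ^ 102 := by rw [h102]; nlinarith [pow_pos hv0 101]
      linarith
    rw [h2, ← hT'] at h1
    have h4 : T * d ≤ (8 / 5 * u + 1) * d := by linarith
    exact le_of_mul_le_mul_right h4 hd0
  have hθv : θ * v ^ 98 ≤ 1 / 4 := by
    have h1 : θ * d * v ^ 98 = X * v ^ 98 := by rw [hθD]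
    have h2 : (X : ℝ) * v ^ 98 ≤ v ^ 102 / 4 * v ^ 98 :=
      mul_le_mul_of_nonneg_right (by linarith) (by positivity)
    have h3 : v ^ 102 / 4 * v ^ 98 = 1 / 4 * d := by
      rw [hdv, show (200:ℕ) = 102 + 98 by norm_num, pow_add]; ring
    have h4 : θ * v ^ 98 * d ≤ 1 / 4 * d := by
      rw [← h3]
      calc θ * v ^ 98 * d = θ * d * v ^ 98 := by ring
        _ = X * v ^ 98 := h1
        _ ≤ _ := h2
    exact le_of_mul_le_mul_right h4 hd0
  have hv98 : v ^ 2 * 10000000000 ≤ v ^ 98 := by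
    have h1 := hpow 3 98 (by norm_num)
    have h2 : v ^ 3 = v ^ 2 * v := pow_succ _ _
    rw [h2] at h1
    nlinarith [pow_pos hv0 2]
  have hθ1 : θ * (v ^ 2 * 10000000000) ≤ 1 / 4 := (mul_le_mul_of_nonneg_left hv98 hθ0.le).trans hθv
  have hv2 : 10000000000 ≤ v ^ 2 := by nlinarith
  -- Z, Y
  obtain ⟨Z, hZ⟩ : ∃ Z : ℕ, Z = ⌈v ^ 88⌉₊ := ⟨_, rfl⟩
  have hZs : v ^ 88 ≤ Z := by rw [hZ]; exact Nat.le_ceil _
  have hZs1 : (Z : ℝ) ≤ v ^ 88 + 1 := by rw [hZ]; exact (Nat.ceil_lt_add_one (by positivity)).le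
  have h88 : (10000000000 : ℝ) ≤ v ^ 88 := by
    have := hpow 1 88 (by norm_num)
    rw [pow_one] at this
    linarith
  have hXn : 2 ≤ X := by
    have : (2 : ℝ) ≤ X := by linarith
    exact_mod_cast this
  have hZn : 3 ≤ Z := by
    have : (3 : ℝ) ≤ Z := by linarith
    exact_mod_cast this
  have h5000 : 5000 ≤ T := by linarith
  refine ⟨X * Z, by nlinarith, ?_, ?_⟩
  · have h1 : (d : ℝ) ^ (19 / 20 : ℝ) = v ^ 190 := by
      rw [hdv, ← Real.rpow_natCast, ← Real.rpow_mul hv0.le, ← Real.rpow_natCast]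
      norm_num
    rw [h1]
    push_cast
    have h2 : (Z : ℝ) ≤ 2 * v ^ 88 := by linarith
    calc (X : ℝ) * Z ≤ (v ^ 102 / 4) * (2 * v ^ 88) :=
          mul_le_mul (by linarith) h2 (by positivity) (by positivity)
      _ = v ^ 190 / 2 := by
          rw [show (190:ℕ) = 102 + 88 by norm_num, pow_add]; ring
      _ ≤ v ^ 190 := by linarith [pow_pos hv0 190]
  · refine star_side (X := X) (Z := Z) (θ := θ) (T := T) (Λ := Λ) (by exact_mod_cast hd0) rfl hZn hXn hθ0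
      ?_ hT.symm h5000 ?_ ?_ hθD ?_ ?_ ?_ ?_
    · nlinarith
    · have h1 : T + Λ ≤ v ^ 2 := by rw [hΛ]; nlinarith
      have h2 : θ * (T + Λ) ≤ θ * v ^ 2 := mul_le_mul_of_nonneg_left h1 hθ0.le
      nlinarith [mul_pos hθ0 (pow_pos hv0 2)]
    · rw [hΛ]; positivity
    · rw [hΛ, Real.log_le_iff_le_exp (by positivity)]
      refine h4X.trans (le_of_eq ?_)
      rw [hvp]; congr 1; push_cast; ring
    · have h1 : Real.exp (-(T / 6) + 3 / 2 * Λ + 4) ≤ Real.exp ((100 : ℕ) * (u / 200) - 4) := by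
        apply Real.exp_le_exp.2
        rw [hΛ]; push_cast; linarith
      have h2 : Real.exp ((100 : ℕ) * (u / 200) - 4) * Real.exp 4 = v ^ 100 := by
        rw [hvp, ← Real.exp_add]; congr 1; ring
      have h3 : (16 : ℝ) ≤ Real.exp 4 := by
        have h10 : Real.exp 4 = (Real.exp 1) ^ 4 := by rw [← Real.exp_nat_mul]; norm_num
        have h11 := Real.exp_one_gt_d9
        rw [h10]
        calc (16 : ℝ) ≤ 2.7 ^ 4 := by norm_num
          _ ≤ (Real.exp 1) ^ 4 := pow_le_pow_left₀ (by norm_num) (by linarith) 4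
      have h4 := Real.exp_pos ((100 : ℕ) * (u / 200) - 4)
      have h5 : 16 * Real.exp ((100 : ℕ) * (u / 200) - 4) ≤ v ^ 100 := by
        rw [← h2]; nlinarith
      calc 16 * Real.exp (-(T / 6) + 3 / 2 * Λ + 4) ≤ 16 * Real.exp ((100 : ℕ) * (u / 200) - 4) := by
            linarith
        _ ≤ v ^ 100 := h5
        _ ≤ X := hslow.trans hXs
    · have h1 : √(X : ℝ) ≤ v ^ 51 := by
        apply Real.sqrt_le_iff.2 ⟨by positivity, ?_⟩
        rw [← pow_mul, show 51 * 2 = 102 by norm_num]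
        linarith
      have h2 : Real.exp ((51 : ℕ) * (u / 200) + 7) ≤ Real.exp (99 / 100 * (T / 6 - 1)) := by
        apply Real.exp_le_exp.2
        push_cast; linarith
      have h3 : Real.exp ((51 : ℕ) * (u / 200) + 7) = v ^ 51 * Real.exp 7 := by
        rw [hvp, Real.exp_add]
      have h4 : (512 : ℝ) ≤ Real.exp 7 := by
        have h10 : Real.exp 7 = (Real.exp 1) ^ 7 := by rw [← Real.exp_nat_mul]; norm_num
        have h11 := Real.exp_one_gt_d9
        rw [h10]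
        calc (512 : ℝ) ≤ 2.7 ^ 7 := by norm_num
          _ ≤ (Real.exp 1) ^ 7 := pow_le_pow_left₀ (by norm_num) (by linarith) 7
      rw [h3] at h2
      refine le_trans ?_ h2
      have h5 : 0 < v ^ 51 := by positivity
      nlinarith
    · have h1 : Real.exp (7 / 12 * T + 1) ≤ Real.exp ((188 : ℕ) * (u / 200) - 4) := by
        apply Real.exp_le_exp.2
        push_cast; linarith
      have h2 : Real.exp ((188 : ℕ) * (u / 200) - 4) * Real.exp 4 = v ^ 188 := by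
        rw [hvp, ← Real.exp_add]; congr 1; ring
      have h3 : (16 : ℝ) ≤ Real.exp 4 := by
        have h10 : Real.exp 4 = (Real.exp 1) ^ 4 := by rw [← Real.exp_nat_mul]; norm_num
        have h11 := Real.exp_one_gt_d9
        rw [h10]
        calc (16 : ℝ) ≤ 2.7 ^ 4 := by norm_num
          _ ≤ (Real.exp 1) ^ 4 := pow_le_pow_left₀ (by norm_num) (by linarith) 4
      have h4 := Real.exp_pos ((188 : ℕ) * (u / 200) - 4)
      have h5 : 16 * Real.exp ((188 : ℕ) * (u / 200) - 4) ≤ v ^ 188 := by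
        rw [← h2]; nlinarith
      push_cast
      calc Real.exp (7 / 12 * T + 1) * 16 ≤ 16 * Real.exp ((188 : ℕ) * (u / 200) - 4) := by linarith
        _ ≤ v ^ 188 := h5
        _ = v ^ 100 * v ^ 88 := by rw [← pow_add]
        _ ≤ X * Z := mul_le_mul (hslow.trans hXs) hZs (by positivity) hX0.le

theorem unif_num {d : ℕ} (hd : Real.exp 5000 ≤ d) : ∃ Y : ℕ, (d : ℝ) ^ (19 / 20 : ℝ) ≤ Y ∧
    Tendsto (fun n : ℕ => ((Finset.univ.filter (fun H : SimpleGraph (Fin n) =>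
      (∀ v, H.degree v = d) ∧
      ∃ I : Finset (Fin n), (∀ x ∈ I, ∀ y ∈ I, ¬ H.Adj x y) ∧ n ≤ Y * I.card)).card : ℝ)
      / ((Finset.univ.filter (fun H : SimpleGraph (Fin n) => ∀ v, H.degree v = d)).card : ℝ))
      atTop (𝓝 0) := by
  obtain ⟨u, v, hu, hdu, hv, hv1, huv, hdv⟩ := v_facts hd
  have hv0 : 0 < v := by linarith
  have hd0 : (0 : ℝ) < d := by rw [hdu]; exact Real.exp_pos _
  have hpow : ∀ a b : ℕ, a ≤ b → v ^ a ≤ v ^ b := fun a b h => pow_le_pow_right₀ (by linarith) h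
  have h1 : (d : ℝ) ^ (19 / 20 : ℝ) = v ^ 190 := by
    rw [hdv, ← Real.rpow_natCast, ← Real.rpow_mul hv0.le, ← Real.rpow_natCast]
    norm_num
  have h190 : (1 : ℝ) ≤ v ^ 190 := one_le_pow₀ (by linarith)
  obtain ⟨Y, hY⟩ : ∃ Y : ℕ, Y = ⌈v ^ 190⌉₊ := ⟨_, rfl⟩
  have hYs : v ^ 190 ≤ Y := by rw [hY]; exact Nat.le_ceil _
  have hYs1 : (Y : ℝ) ≤ 2 * v ^ 190 := by
    have : (Y : ℝ) ≤ v ^ 190 + 1 := by rw [hY]; exact (Nat.ceil_lt_add_one (by positivity)).le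
    linarith
  obtain ⟨W, hW⟩ : ∃ W : ℕ, W = ⌈4 * u⌉₊ := ⟨_, rfl⟩
  have hWs : 4 * u ≤ W := by rw [hW]; exact Nat.le_ceil _
  have hWs1 : (W : ℝ) ≤ v ^ 2 := by
    have : (W : ℝ) ≤ 4 * u + 1 := by rw [hW]; exact (Nat.ceil_lt_add_one (by positivity)).le
    nlinarith
  have hYp : 0 < Y := by
    have : (0 : ℝ) < Y := by linarith
    exact_mod_cast this
  refine ⟨Y, by rw [h1]; exact hYs, uniform_side (W := W) (by exact_mod_cast hd0) hYp ?_ ?_⟩
  · have h2 : ((64 * W * Y : ℕ) : ℝ) ≤ d := by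
      push_cast
      have h3 : (64 : ℝ) * W * Y ≤ 64 * v ^ 2 * (2 * v ^ 190) :=
        mul_le_mul (by linarith) hYs1 (by positivity) (by positivity)
      have h4 : 64 * v ^ 2 * (2 * v ^ 190) = 128 * v ^ 192 := by
        rw [show (192:ℕ) = 2 + 190 by norm_num, pow_add]; ring
      have h5 : v ^ 193 ≤ v ^ 200 := hpow _ _ (by norm_num)
      have h6 : v ^ 193 = v ^ 192 * v := pow_succ _ _
      rw [hdv]
      nlinarith [pow_pos hv0 192]
    exact_mod_cast h2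
  · have h2 : ((12 * Y : ℕ) : ℝ) ≤ ((2 ^ W : ℕ) : ℝ) := by
      push_cast
      have h3 : (d : ℝ) ^ 2 ≤ (2 : ℝ) ^ W := by
        have h4 : (2 : ℝ) ^ W = Real.exp (W * Real.log 2) := by
          rw [mul_comm, Real.exp_mul, Real.exp_log (by norm_num), Real.rpow_natCast]
        rw [h4, hdu, ← Real.exp_nat_mul]
        apply Real.exp_le_exp.2
        have h5 := Real.log_two_gt_d9
        push_cast
        nlinarith
      have h4 : 12 * (Y : ℝ) ≤ (d : ℝ) ^ 2 := by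
        have h5 : v ^ 190 ≤ v ^ 200 := hpow _ _ (by norm_num)
        rw [← hdv] at h5
        have h6 : (24 : ℝ) ≤ d := by linarith [hpow 1 190 (by norm_num), pow_one v]
        nlinarith
      linarith
    exact_mod_cast h2

end Pool.Agent.Helper49.SG
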